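import Pool.Agent.Run7.h332.WP.Basis3
import Pool.Agent.Run7.h332.WP.Lower

/-!
# MP_9937dc_nt: five positive cubes and one randomly perturbed cube

Let `32/243 < δ ≤ 2/3` and let `ξ n` be independent random nonnegative integers such that each integer
`j ≤ n ^ (3 δ)` is the value of `ξ n` with probability at least `c / n ^ (3 δ)`, for instance uniform on the
integers `≤ n ^ (3 δ)`. Here `3 δ` may be any number above `32/81 = 0.395...`, so that the *perturbed cube*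
`n ^ 3 + ξ n` may be taken to differ from `n ^ 3` by less than `n ^ 0.3951`. Almost surely every sufficiently
large integer is a sum of five cubes of positive integers and one perturbed cube (of a positive integer):
six terms, five of them exact.
-/

open MeasureTheory ProbabilityTheory Filter

namespace Pool.Agent.Results.MP_9937dc_nt.FiveCubesAndOnePerturbed

/-- **Main result.** -/
theorem result {Ω : Type*} [MeasurableSpace Ω] (P : Measure Ω) [IsProbabilityMeasure P]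
    (δ : ℝ) (hδ0 : 32 / 243 < δ) (hδ1 : δ ≤ 2 / 3) (κ : ℝ) (hκ : 0 < κ)
    (ξ : ℕ → Ω → ℕ) (hm : ∀ n, Measurable (ξ n)) (hind : iIndepFun ξ P)
    (hdens : ∀ n j : ℕ, 1 ≤ n → (j : ℝ) ≤ (n : ℝ) ^ (3 * δ) →
      κ / (n : ℝ) ^ (3 * δ) ≤ P.real {ω | ξ n ω = j}) :
    ∀ᵐ ω ∂P, ∃ N₀ : ℕ, ∀ m : ℕ, N₀ ≤ m → ∃ a b c d e f : ℕ,
      1 ≤ a ∧ 1 ≤ b ∧ 1 ≤ c ∧ 1 ≤ d ∧ 1 ≤ e ∧ 1 ≤ f ∧
        m = a ^ 3 + b ^ 3 + c ^ 3 + d ^ 3 + e ^ 3 + (f ^ 3 + ξ f ω) := by
  have hd : ∀ n j : ℕ, 1 ≤ n → (j : ℝ) ≤ (n : ℝ) ^ (δ * (3 : ℕ)) →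
      κ / (n : ℝ) ^ (δ * (3 : ℕ)) ≤ P.real {ω | ξ n ω = j} := by
    intro n j hn hj
    have h : δ * ((3 : ℕ) : ℝ) = 3 * δ := by push_cast; ring
    rw [h] at hj ⊢
    exact hdens n j hn hj
  filter_upwards [Run7.h332.WP.positive 3 (by norm_num) δ (by linarith) (by norm_num; linarith)
    κ hκ ξ hm hind hd] with ω hω
  obtain ⟨N₀, h⟩ := hω 5 1 (by norm_num; linarith) (by norm_num)
  refine ⟨N₀, fun m hmN => ?_⟩
  obtain ⟨a, b, ha, hb, hab⟩ := h m hmN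
  refine ⟨a 0, a 1, a 2, a 3, a 4, b 0, ha 0, ha 1, ha 2, ha 3, ha 4, hb 0, ?_⟩
  rw [hab, Fin.sum_univ_five, Fin.sum_univ_one]

end Pool.Agent.Results.MP_9937dc_nt.FiveCubesAndOnePerturbed
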